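import Pool.Agent.Helper95.LN.Stmts
import Pool.Agent.Helper72.PW.PIN

/-! # LN row PHB: gradient and Laplacian of the smeared Coulomb potential -/

set_option autoImplicit false

namespace Pool.Agent.Helper49.LN

open MeasureTheory Filter Pool.Agent.Helper95.PW Pool.Agent.Helper95.LN

theorem bt_cont : Continuous bt := by
  unfold bt
  exact (Real.smoothTransition.continuous.comp (by fun_prop)).mul
    (Real.smoothTransition.continuous.comp (by fun_prop))

theorem bt_left {t : ℝ} (h : t ≤ 1) : bt t = 0 := by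
  unfold bt
  rw [Real.smoothTransition.zero_of_nonpos (by linarith), zero_mul]

theorem bt_right {t : ℝ} (h : 2 ≤ t) : bt t = 0 := by
  unfold bt
  rw [Real.smoothTransition.zero_of_nonpos (x := 4 * (2 - t)) (by linarith), mul_zero]

theorem bt_pos {t : ℝ} (h1 : 1 < t) (h2 : t < 2) : 0 < bt t := by
  unfold bt
  exact mul_pos (Real.smoothTransition.pos_of_pos (by linarith))
    (Real.smoothTransition.pos_of_pos (by linarith))

theorem bt2_cont : Continuous fun t => bt t ^ 2 := bt_cont.pow 2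

theorem cb_pos : 0 < cb := by
  unfold cb
  apply intervalIntegral.intervalIntegral_pos_of_pos_on
    (bt2_cont.intervalIntegrable _ _) _ (by norm_num)
  intro t ht
  exact pow_pos (bt_pos ht.1 ht.2) 2

theorem G1_deriv (t : ℝ) : HasDerivAt G1 (-(bt t ^ 2 / cb)) t := by
  have h1 : HasDerivAt (fun u => ∫ x in (2 : ℝ)..u, bt x ^ 2) (bt t ^ 2) t :=
    (bt2_cont.integral_hasStrictDerivAt 2 t).hasDerivAt
  have h2 := (h1.neg).const_mul (1 / cb)
  have e : G1 = fun u => 1 / cb * -(∫ x in (2 : ℝ)..u, bt x ^ 2) := by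
    funext u
    unfold G1
    rw [← intervalIntegral.integral_symm]
  rw [e]
  refine h2.congr_deriv ?_
  ring

theorem G1_cont : Continuous G1 :=
  continuous_iff_continuousAt.2 fun t => (G1_deriv t).continuousAt

theorem G1_one {t : ℝ} (h : t ≤ 1) : G1 t = 1 := by
  unfold G1
  have h1 : ∫ u in t..1, bt u ^ 2 = ∫ u in t..1, (0 : ℝ) := by
    apply intervalIntegral.integral_congr
    intro x hx
    rw [Set.uIcc_of_le h] at hx
    simp only
    rw [bt_left hx.2]
    norm_num
  have h2 := intervalIntegral.integral_add_adjacent_intervals (μ := volume)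
    (bt2_cont.intervalIntegrable t 1) (bt2_cont.intervalIntegrable 1 2)
  rw [h1, intervalIntegral.integral_zero, zero_add] at h2
  rw [← h2]
  have h3 : ∫ u in (1 : ℝ)..2, bt u ^ 2 = cb := rfl
  rw [h3, one_div, inv_mul_cancel₀ cb_pos.ne']

theorem G1_zero {t : ℝ} (h : 2 ≤ t) : G1 t = 0 := by
  unfold G1
  have h1 : ∫ u in t..2, bt u ^ 2 = ∫ u in t..2, (0 : ℝ) := by
    apply intervalIntegral.integral_congr
    intro x hx
    rw [Set.uIcc_of_ge h] at hx
    simp only
    rw [bt_right hx.1]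
    norm_num
  rw [h1, intervalIntegral.integral_zero, mul_zero]

theorem G1_anti : Antitone G1 := by
  apply antitone_of_deriv_nonpos (fun t => (G1_deriv t).differentiableAt)
  intro t
  rw [(G1_deriv t).deriv]
  have := cb_pos
  have : 0 ≤ bt t ^ 2 / cb := by positivity
  linarith

theorem G1_le (t : ℝ) : G1 t ≤ 1 := by
  rw [← G1_one (min_le_right t 1)]
  exact G1_anti (min_le_left t 1)

theorem G1_nn (t : ℝ) : 0 ≤ G1 t := by
  rw [← G1_zero (le_max_right t 2)]
  exact G1_anti (le_max_left t 2)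

theorem G0_deriv (t : ℝ) : HasDerivAt G0 (G1 t) t := by
  have h1 : HasDerivAt (fun u => ∫ x in (0 : ℝ)..u, G1 x) (G1 t) t :=
    (G1_cont.integral_hasStrictDerivAt 0 t).hasDerivAt
  exact h1

theorem G0_two {t : ℝ} (h : 2 ≤ t) : G0 t = G0 2 := by
  unfold G0
  have h2 := intervalIntegral.integral_add_adjacent_intervals (μ := volume)
    (G1_cont.intervalIntegrable 0 2) (G1_cont.intervalIntegrable 2 t)
  have h1 : ∫ u in (2 : ℝ)..t, G1 u = ∫ u in (2 : ℝ)..t, (0 : ℝ) := by
    apply intervalIntegral.integral_congr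
    intro x hx
    rw [Set.uIcc_of_le h] at hx
    simp only
    exact G1_zero hx.1
  rw [h1, intervalIntegral.integral_zero, add_zero] at h2
  exact h2.symm

theorem nr_q (y : R3) : nr y = Real.sqrt (pin_q 0 y) := by
  unfold nr pin_q
  congr 1
  ring

theorem q_pos {y : R3} (h : 0 < nr y) : 0 < pin_q 0 y := by
  rw [nr_q] at h
  exact Real.sqrt_pos.1 h

theorem nr_nn (y : R3) : 0 ≤ nr y := Real.sqrt_nonneg _

theorem open_pos : IsOpen {z : R3 | 0 < nr z} := isOpen_lt continuous_const pin_nrc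

theorem ph_form {a : ℝ} (ha : 0 < a) {y : R3} (h : 0 < nr y) :
    ph a y = G0 (a / Real.sqrt (pin_q 0 y)) / a := by
  unfold ph
  rw [← nr_q]
  by_cases hr : nr y < a / 2
  · rw [if_pos hr]
    have h2 : 2 ≤ a / nr y := by
      rw [le_div_iff₀ h]
      linarith
    rw [G0_two h2]
  · rw [if_neg hr]

theorem inv_deriv {a t : ℝ} (ht : 0 < t) :
    HasDerivAt (fun t => a / Real.sqrt t) (-(a / (2 * Real.sqrt t ^ 3))) t := by
  have hs := Real.sqrt_pos.2 ht
  have h1 := ((Real.hasDerivAt_sqrt ht.ne').inv hs.ne').const_mul a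
  refine (h1.congr_deriv ?_).congr_of_eventuallyEq (Filter.Eventually.of_forall fun x => ?_)
  · field_simp
  · simp only [Pi.inv_apply, div_eq_mul_inv]

/-- the gradient -/
theorem grad {a : ℝ} (ha : 0 < a) (i : Fin 3) {y : R3} (h : 0 < nr y) :
    pd i (ph a) y = -(G1 (a / Real.sqrt (pin_q 0 y)) / Real.sqrt (pin_q 0 y) ^ 3) * y i := by
  have hq := q_pos h
  have hs := Real.sqrt_pos.2 hq
  have he : ph a =ᶠ[nhds y] fun z => (fun t => G0 (a / Real.sqrt t) / a) (pin_q 0 z) := by
    filter_upwards [open_pos.mem_nhds h] with z hz using ph_form ha hz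
  have hF : HasDerivAt (fun t => G0 (a / Real.sqrt t) / a)
      (G1 (a / Real.sqrt (pin_q 0 y)) * (-(a / (2 * Real.sqrt (pin_q 0 y) ^ 3))) / a)
      (pin_q 0 y) :=
    (HasDerivAt.comp (h₂ := G0) (h := fun t => a / Real.sqrt t) (pin_q 0 y)
      (G0_deriv (a / Real.sqrt (pin_q 0 y))) (inv_deriv (a := a) hq)).div_const a
  have h1 : pd i (ph a) y = pd i (fun z => (fun t => G0 (a / Real.sqrt t) / a) (pin_q 0 z)) y := by
    unfold pd
    rw [he.fderiv_eq]
  rw [h1, pin_pdq _ _ i y hF]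
  field_simp

theorem inner {a : ℝ} {y : R3} (h : nr y < a / 2) (i : Fin 3) : pd i (ph a) y = 0 := by
  have hO : IsOpen {z : R3 | nr z < a / 2} := isOpen_lt pin_nrc continuous_const
  have he : ph a =ᶠ[nhds y] fun _ => G0 2 / a := by
    filter_upwards [hO.mem_nhds h] with z hz
    unfold ph
    rw [if_pos (show nr z < a / 2 from hz)]
  unfold pd
  rw [he.fderiv_eq]
  simp

theorem innerL {a : ℝ} {y : R3} (h : nr y < a / 2) (i : Fin 3) : pd i (pd i (ph a)) y = 0 := by
  have hO : IsOpen {z : R3 | nr z < a / 2} := isOpen_lt pin_nrc continuous_const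
  have he : pd i (ph a) =ᶠ[nhds y] fun _ => (0 : ℝ) := by
    filter_upwards [hO.mem_nhds h] with z hz using inner hz i
  have h1 : pd i (pd i (ph a)) y = pd i (fun _ => (0 : ℝ)) y := by
    show fderiv ℝ (pd i (ph a)) y _ = fderiv ℝ (fun _ => (0 : ℝ)) y _
    rw [he.fderiv_eq]
  rw [h1]
  unfold pd
  simp

theorem et_inner {a : ℝ} (ha : 0 < a) {y : R3} (h : nr y < a / 2) : et a y = 0 := by
  unfold et
  rcases (nr_nn y).eq_or_lt with h0 | h0
  · rw [← h0]
    simp
  · have h2 : 2 ≤ a / nr y := by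
      rw [le_div_iff₀ h0]
      linarith
    rw [bt_right h2]
    simp

theorem da_comp {F : ℝ → ℝ} {F' : ℝ} {q : R3 → ℝ} {q' : R3 →L[ℝ] ℝ} {y : R3}
    (hF : HasDerivAt F F' (q y)) (hq : HasFDerivAt q q' y) :
    DifferentiableAt ℝ (fun z => F (q z)) y :=
  (hF.comp_hasFDerivAt y hq).differentiableAt

/-- second derivatives away from the origin -/
theorem lap_out {a : ℝ} (ha : 0 < a) {y : R3} (h : 0 < nr y) : lap (ph a) y = -et a y := by
  have hq := q_pos h
  have hs := Real.sqrt_pos.2 hq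
  have hcb := cb_pos
  set t := pin_q 0 y with ht
  obtain ⟨r, hr⟩ : ∃ r, r = Real.sqrt t := ⟨_, rfl⟩
  have hr0 : 0 < r := by rw [hr]; exact hs
  have hrt : t = r ^ 2 := by rw [hr, Real.sq_sqrt hq.le]
  -- derivative of the radial factor
  have hK : HasDerivAt (fun t => -(G1 (a / Real.sqrt t) / Real.sqrt t ^ 3))
      (-(bt (a / r) ^ 2 / cb * (a / (2 * r ^ 6))) + 3 / 2 * (G1 (a / r) / r ^ 5)) t := by
    have h1 : HasDerivAt (fun t => G1 (a / Real.sqrt t))
        (-(bt (a / Real.sqrt t) ^ 2 / cb) * (-(a / (2 * Real.sqrt t ^ 3)))) t :=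
      HasDerivAt.comp (h₂ := G1) (h := fun t => a / Real.sqrt t) t
        (G1_deriv (a / Real.sqrt t)) (inv_deriv (a := a) hq)
    have h2 : HasDerivAt (fun t => Real.sqrt t ^ 3)
        (3 * Real.sqrt t ^ 2 * (1 / (2 * Real.sqrt t))) t := by
      have := (Real.hasDerivAt_sqrt hq.ne').pow 3
      refine this.congr_deriv ?_
      norm_num
    have h3 := (h1.div h2 (pow_pos hs 3).ne').neg
    refine h3.congr_deriv ?_
    rw [← hr]
    field_simp
    ring
  have hrad : ∀ i : Fin 3, pd i (pd i (ph a)) y =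
      (-(bt (a / r) ^ 2 / cb * (a / (2 * r ^ 6))) + 3 / 2 * (G1 (a / r) / r ^ 5)) * (2 * y i) *
        y i + -(G1 (a / r) / r ^ 3) := by
    intro i
    have he : pd i (ph a) =ᶠ[nhds y]
        fun z => (fun t => -(G1 (a / Real.sqrt t) / Real.sqrt t ^ 3)) (pin_q 0 z) * z i := by
      filter_upwards [open_pos.mem_nhds h] with z hz using grad ha i hz
    have hA : DifferentiableAt ℝ (fun z => (fun t => -(G1 (a / Real.sqrt t) / Real.sqrt t ^ 3))
        (pin_q 0 z)) y :=
      da_comp (F := fun t => -(G1 (a / Real.sqrt t) / Real.sqrt t ^ 3)) (q := pin_q 0) hK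
        (pin_hq 0 y)
    have hB : HasFDerivAt (fun z : R3 => z i) (ContinuousLinearMap.proj i : R3 →L[ℝ] ℝ) y :=
      hasFDerivAt_apply (𝕜 := ℝ) i y
    have h1 : pd i (pd i (ph a)) y = fderiv ℝ (fun z =>
        (fun t => -(G1 (a / Real.sqrt t) / Real.sqrt t ^ 3)) (pin_q 0 z) * z i) y
          (Pi.single i 1) := by
      show fderiv ℝ (pd i (ph a)) y _ = _
      rw [he.fderiv_eq]
    have h2 := pin_pdq (s := 0) (fun t => -(G1 (a / Real.sqrt t) / Real.sqrt t ^ 3)) _ i y hK
    unfold pd at h2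
    rw [h1, fderiv_fun_mul hA hB.differentiableAt, hB.fderiv]
    simp only [ContinuousLinearMap.add_apply, ContinuousLinearMap.smul_apply, smul_eq_mul,
      ContinuousLinearMap.proj_apply, Pi.single_eq_same, mul_one]
    rw [h2]
    simp only [← ht, ← hr]
    ring
  have hsum : y 0 ^ 2 + y 1 ^ 2 + y 2 ^ 2 = r ^ 2 := by
    rw [← hrt, ht]
    unfold pin_q
    ring
  unfold lap
  rw [Fin.sum_univ_three, hrad 0, hrad 1, hrad 2]
  have hnr : nr y = r := by rw [nr_q, hr]
  unfold et
  rw [hnr]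
  have e : ∀ P Q : ℝ, P * (2 * y 0) * y 0 + -Q + (P * (2 * y 1) * y 1 + -Q) +
      (P * (2 * y 2) * y 2 + -Q) = 2 * P * r ^ 2 - 3 * Q := by
    intro P Q
    rw [← hsum]
    ring
  rw [e]
  field_simp
  ring

theorem yi_le (i : Fin 3) (y : R3) : |y i| ≤ nr y := by
  unfold nr
  apply Real.abs_le_sqrt
  fin_cases i <;> simp <;> nlinarith [sq_nonneg (y 0), sq_nonneg (y 1), sq_nonneg (y 2)]

theorem grad_le {a : ℝ} (ha : 0 < a) (i : Fin 3) {y : R3} (h : 0 < nr y) :
    |pd i (ph a) y| ≤ 1 / nr y ^ 2 := by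
  rw [grad ha i h, ← nr_q, abs_mul, abs_neg, abs_div, abs_of_nonneg (G1_nn _),
    abs_of_pos (pow_pos h 3)]
  calc G1 (a / nr y) / nr y ^ 3 * |y i| ≤ 1 / nr y ^ 3 * nr y := by
        apply mul_le_mul _ (yi_le i y) (abs_nonneg _) (by positivity)
        exact div_le_div_of_nonneg_right (G1_le _) (by positivity)
    _ = 1 / nr y ^ 2 := by field_simp

theorem PHB (_ : ST_PHA) : ST_PHB := by
  intro a ha
  refine ⟨?_, ?_, ?_, ?_⟩
  · intro y
    rcases (nr_nn y).eq_or_lt with h0 | h0
    · have h : nr y < a / 2 := by rw [← h0]; positivity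
      rw [et_inner ha h]
      unfold lap
      rw [Finset.sum_congr rfl fun i _ => innerL h i]
      simp
    · exact lap_out ha h0
  · intro i y
    by_cases h : nr y < a / 2
    · rw [inner h i, abs_zero]
      positivity
    · push Not at h
      have h0 : 0 < nr y := by linarith [half_pos ha]
      refine (grad_le ha i h0).trans ?_
      rw [div_le_div_iff₀ (by positivity) (by positivity)]
      nlinarith
  · intro i y hy
    exact grad_le ha i (lt_of_le_of_ne (nr_nn y) (Ne.symm hy))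
  · intro i y hy
    have h0 : 0 < nr y := by linarith
    rw [grad ha i h0, ← nr_q, G1_one ((div_le_one h0).2 hy)]
    ring

end Pool.Agent.Helper49.LN
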